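import Pool.Agent.Helper20.QD.St6

/-!
# Project QD, part B (MP_d112a4_gt), module DDR: `FF` is continuously differentiable
-/

open Filter Topology Matrix Set Metric MeasureTheory
open scoped ComplexConjugate

namespace Pool.Agent.Helper75.QD

open Pool.Agent.Helper35.PM Pool.Agent.Helper20.QD

/-- differentiation of a parametric integral with continuous data -/
private theorem param_fd {E F : Type*} [NormedAddCommGroup E] [NormedSpace ℝ E]
    [ProperSpace E] [NormedAddCommGroup F] [NormedSpace ℝ F] [CompleteSpace F]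
    {U : Set E} (hU : IsOpen U) {f : E → ℝ → F} {f' : E → ℝ → (E →L[ℝ] F)}
    (hd : ∀ p ∈ U, ∀ t, HasFDerivAt (fun q => f q t) (f' p t) p)
    (hc : ContinuousOn (fun q : E × ℝ => f q.1 q.2) (U ×ˢ univ))
    (hc' : ContinuousOn (fun q : E × ℝ => f' q.1 q.2) (U ×ˢ univ)) (a b : ℝ) :
    (∀ p ∈ U, HasFDerivAt (fun q => ∫ t in a..b, f q t) (∫ t in a..b, f' p t) p) := by
  intro p hp
  obtain ⟨ε, hε, hb⟩ := Metric.nhds_basis_closedBall.mem_iff.1 (hU.mem_nhds hp)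
  have hK : IsCompact (closedBall p ε ×ˢ uIcc a b) := (isCompact_closedBall p ε).prod isCompact_uIcc
  obtain ⟨M, hM⟩ := hK.exists_bound_of_continuousOn
    (hc'.mono (fun q hq => ⟨hb hq.1, mem_univ _⟩ : closedBall p ε ×ˢ uIcc a b ⊆ U ×ˢ univ))
  have hsec : ∀ q ∈ U, Continuous (fun t => f q t) := fun q hq =>
    hc.comp_continuous (f := fun t : ℝ => (q, t)) (by fun_prop) (fun t => ⟨hq, mem_univ _⟩)
  have hsec' : ∀ q ∈ U, Continuous (fun t => f' q t) := fun q hq =>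
    hc'.comp_continuous (f := fun t : ℝ => (q, t)) (by fun_prop) (fun t => ⟨hq, mem_univ _⟩)
  refine intervalIntegral.hasFDerivAt_integral_of_dominated_of_fderiv_le
    (bound := fun _ => M) (closedBall_mem_nhds p hε) ?_ ?_ ?_ ?_ ?_ ?_
  · filter_upwards [hU.mem_nhds hp] with q hq
    exact (hsec q hq).aestronglyMeasurable
  · exact (hsec p hp).intervalIntegrable _ _
  · exact (hsec' p hp).aestronglyMeasurable
  · refine Eventually.of_forall fun t ht q hq => hM (q, t) ⟨hq, ?_⟩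
    exact uIoc_subset_uIcc ht
  · exact intervalIntegrable_const
  · exact Eventually.of_forall fun t _ q hq => hd q (hb hq) t

private theorem param_co {E F : Type*} [TopologicalSpace E] [FirstCountableTopology E]
    [NormedAddCommGroup F] [NormedSpace ℝ F]
    {U : Set E} {f : E → ℝ → F}
    (hc : Continuous (fun q : U × ℝ => f q.1 q.2)) (a b : ℝ) :
    ContinuousOn (fun p => ∫ t in a..b, f p t) U := by
  rw [continuousOn_iff_continuous_domRestrict]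
  exact intervalIntegral.continuous_parametric_intervalIntegral_of_continuous'
    (f := fun (p : U) t => f p t) hc a b

/-! ### the kernels -/

private theorem mul_conj_one {ζ : ℂ} (h : ‖ζ‖ = 1) : ζ * conj ζ = 1 := by
  rw [Complex.mul_conj, Complex.normSq_eq_norm_sq, h]; simp

private theorem sub_ne {z ζ : ℂ} (hz : ‖z‖ < 1) (h : ‖ζ‖ = 1) : ζ - z ≠ 0 := by
  intro h0
  have : ζ = z := sub_eq_zero.1 h0
  rw [this] at h
  linarith

private theorem one_sub_ne {w η : ℂ} (hw : ‖w‖ < 1) (h : ‖η‖ = 1) : 1 - conj w * η ≠ 0 := by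
  intro h0
  have h1 : conj w * η = 1 := (sub_eq_zero.1 h0).symm
  have h2 : ‖conj w * η‖ = ‖w‖ := by rw [norm_mul, h, mul_one, RCLike.norm_conj]
  rw [h1, norm_one] at h2
  linarith

/-- the `z`-derivative of the Poisson kernel -/
private noncomputable def kA (z ζ : ℂ) : ℂ := ζ / (ζ - z) ^ 2

private theorem PK_eq {z ζ : ℂ} (h : ‖ζ‖ = 1) :
    ((PK z ζ : ℝ) : ℂ) = ((ζ + z) / (ζ - z) + conj ((ζ + z) / (ζ - z))) / 2 := by
  by_cases h0 : ζ - z = 0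
  · unfold PK
    rw [h0]; simp
  · have h0' : conj ζ - conj z ≠ 0 := by
      rw [← map_sub]; exact (map_ne_zero _).2 h0
    have h1 := mul_conj_one h
    unfold PK
    push_cast
    have h2 : (‖ζ - z‖ : ℂ) ^ 2 = (ζ - z) * (conj ζ - conj z) := by
      rw [← map_sub, Complex.mul_conj, Complex.normSq_eq_norm_sq]; push_cast; rfl
    have h3 : (‖z‖ : ℂ) ^ 2 = z * conj z := by
      rw [Complex.mul_conj, Complex.normSq_eq_norm_sq]; push_cast; rfl
    rw [h2, h3, map_div₀, map_add, map_sub]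
    field_simp
    linear_combination -2 * h1

private theorem hasFD_PK {z ζ : ℂ} (h : ‖ζ‖ = 1) (hz : ‖z‖ < 1) :
    HasFDerivAt (fun z : ℂ => ((PK z ζ : ℝ) : ℂ))
      (kA z ζ • (ContinuousLinearMap.id ℝ ℂ) + conj (kA z ζ) • (Complex.conjCLE : ℂ →L[ℝ] ℂ)) z := by
  have h0 := sub_ne hz h
  have h1 : HasDerivAt (fun z : ℂ => (ζ + z) / (ζ - z)) (2 * kA z ζ) z := by
    have a1 : HasDerivAt (fun z : ℂ => ζ + z) 1 z := (hasDerivAt_id z).const_add ζ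
    have a2 : HasDerivAt (fun z : ℂ => ζ - z) (-1) z := (hasDerivAt_id z).const_sub ζ
    refine (a1.div a2 h0).congr_deriv ?_
    unfold kA
    field_simp
    ring
  have h2 : HasFDerivAt (fun z : ℂ => (ζ + z) / (ζ - z))
      ((2 * kA z ζ) • ContinuousLinearMap.id ℝ ℂ) z := by
    refine (h1.hasFDerivAt.restrictScalars ℝ).congr_fderiv ?_
    apply ContinuousLinearMap.ext
    intro a
    simp [mul_comm]
  have h3 : HasFDerivAt (fun z : ℂ => conj ((ζ + z) / (ζ - z)))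
      ((Complex.conjCLE : ℂ →L[ℝ] ℂ).comp ((2 * kA z ζ) • ContinuousLinearMap.id ℝ ℂ)) z :=
    (Complex.conjCLE : ℂ →L[ℝ] ℂ).hasFDerivAt.comp z h2
  have h4 := (h2.add h3).const_mul (1 / 2 : ℂ)
  have h5 : (fun z : ℂ => ((PK z ζ : ℝ) : ℂ)) = fun z : ℂ =>
      (1 / 2 : ℂ) * ((ζ + z) / (ζ - z) + conj ((ζ + z) / (ζ - z))) := by
    funext z
    rw [PK_eq h]; ring
  rw [h5]
  refine h4.congr_fderiv ?_
  apply ContinuousLinearMap.ext
  intro a
  have e2 : (starRingEnd ℂ) (2 : ℂ) = 2 := map_ofNat _ 2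
  simp [e2]
  ring

private theorem hasFD_TT {w η : ℂ} (h : ‖η‖ = 1) (hw : ‖w‖ < 1) :
    HasFDerivAt (fun w : ℂ => TT w η)
      ((-1 / (1 - conj w * η)) • (ContinuousLinearMap.id ℝ ℂ) +
        ((η - w) * η / (1 - conj w * η) ^ 2) • (Complex.conjCLE : ℂ →L[ℝ] ℂ)) w := by
  have h0 := one_sub_ne hw h
  have h1 : HasFDerivAt (fun w : ℂ => η - w) (-(ContinuousLinearMap.id ℝ ℂ)) w :=
    (hasFDerivAt_id w).const_sub η
  have h2 : HasFDerivAt (fun w : ℂ => 1 - conj w * η)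
      (-(η • (Complex.conjCLE : ℂ →L[ℝ] ℂ))) w := by
    have a1 : HasFDerivAt (fun w : ℂ => conj w) (Complex.conjCLE : ℂ →L[ℝ] ℂ) w :=
      (Complex.conjCLE : ℂ →L[ℝ] ℂ).hasFDerivAt
    exact (a1.mul_const η).const_sub 1
  have h3 := ((hasDerivAt_inv h0).hasFDerivAt.restrictScalars ℝ).comp w h2
  have h4 := h1.mul h3
  have h5 : (fun w : ℂ => TT w η) = fun w => (η - w) * (1 - conj w * η)⁻¹ := by
    funext w
    unfold TT
    rw [div_eq_mul_inv]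
  rw [h5]
  refine h4.congr_fderiv ?_
  apply ContinuousLinearMap.ext
  intro a
  simp
  field_simp
  ring

private noncomputable def ET (t : ℝ) : ℂ := Complex.exp (t * Complex.I)

private theorem norm_ET (t : ℝ) : ‖ET t‖ = 1 := Complex.norm_exp_ofReal_mul_I t

private theorem cont_ET : Continuous ET := by unfold ET; fun_prop

private theorem mem_ET (t : ℝ) : ET t ∈ SS := by simp [norm_ET]

/-- the four coefficients -/
private noncomputable def c1 (φ : ℂ → ℂ) (p : ℂ × ℂ) (t : ℝ) : ℂ :=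
  TT p.2 (φ (ET t)) * kA p.1 (ET t)
private noncomputable def c2 (φ : ℂ → ℂ) (p : ℂ × ℂ) (t : ℝ) : ℂ :=
  TT p.2 (φ (ET t)) * conj (kA p.1 (ET t))
private noncomputable def c3 (φ : ℂ → ℂ) (p : ℂ × ℂ) (t : ℝ) : ℂ :=
  ((PK p.1 (ET t) : ℝ) : ℂ) * (-1 / (1 - conj p.2 * φ (ET t)))
private noncomputable def c4 (φ : ℂ → ℂ) (p : ℂ × ℂ) (t : ℝ) : ℂ :=
  ((PK p.1 (ET t) : ℝ) : ℂ) * ((φ (ET t) - p.2) * φ (ET t) / (1 - conj p.2 * φ (ET t)) ^ 2)

private noncomputable abbrev L1 : ℂ × ℂ →L[ℝ] ℂ := ContinuousLinearMap.fst ℝ ℂ ℂ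
private noncomputable abbrev L2 : ℂ × ℂ →L[ℝ] ℂ :=
  (Complex.conjCLE : ℂ →L[ℝ] ℂ).comp (ContinuousLinearMap.fst ℝ ℂ ℂ)
private noncomputable abbrev L3 : ℂ × ℂ →L[ℝ] ℂ := ContinuousLinearMap.snd ℝ ℂ ℂ
private noncomputable abbrev L4 : ℂ × ℂ →L[ℝ] ℂ :=
  (Complex.conjCLE : ℂ →L[ℝ] ℂ).comp (ContinuousLinearMap.snd ℝ ℂ ℂ)

private noncomputable def F0 (φ : ℂ → ℂ) (p : ℂ × ℂ) (t : ℝ) : ℂ :=
  ((PK p.1 (ET t) : ℝ) : ℂ) * TT p.2 (φ (ET t))

private noncomputable def F1 (φ : ℂ → ℂ) (p : ℂ × ℂ) (t : ℝ) : ℂ × ℂ →L[ℝ] ℂ :=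
  c1 φ p t • L1 + c2 φ p t • L2 + c3 φ p t • L3 + c4 φ p t • L4

private theorem hasFD_F {φ : ℂ → ℂ} (hφ : MapsTo φ SS SS) {p : ℂ × ℂ} (hp : p ∈ D ×ˢ D) (t : ℝ) :
    HasFDerivAt (fun q => F0 φ q t) (F1 φ p t) p := by
  have hz : ‖p.1‖ < 1 := by simpa using hp.1
  have hw : ‖p.2‖ < 1 := by simpa using hp.2
  have hη : ‖φ (ET t)‖ = 1 := by simpa using hφ (mem_ET t)
  have h1 : HasFDerivAt (fun q : ℂ × ℂ => ((PK q.1 (ET t) : ℝ) : ℂ)) _ p :=
    (hasFD_PK (norm_ET t) hz).comp p hasFDerivAt_fst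
  have h2 : HasFDerivAt (fun q : ℂ × ℂ => TT q.2 (φ (ET t))) _ p :=
    (hasFD_TT hη hw).comp p hasFDerivAt_snd
  refine (h1.mul h2).congr_fderiv ?_
  apply ContinuousLinearMap.ext
  intro a
  simp [F1, c1, c2, c3, c4]
  ring

private theorem cont_H {φ : ℂ → ℂ} (hc : ContinuousOn φ SS) : Continuous (fun t => φ (ET t)) :=
  hc.comp_continuous cont_ET mem_ET

section cont

variable {φ : ℂ → ℂ} (hc : ContinuousOn φ SS) (hφ : MapsTo φ SS SS)

include hc hφ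

private theorem cont_all :
    Continuous (fun q : (D ×ˢ D : Set (ℂ × ℂ)) × ℝ => c1 φ q.1 q.2) ∧
    Continuous (fun q : (D ×ˢ D : Set (ℂ × ℂ)) × ℝ => c2 φ q.1 q.2) ∧
    Continuous (fun q : (D ×ˢ D : Set (ℂ × ℂ)) × ℝ => c3 φ q.1 q.2) ∧
    Continuous (fun q : (D ×ˢ D : Set (ℂ × ℂ)) × ℝ => c4 φ q.1 q.2) ∧
    Continuous (fun q : (D ×ˢ D : Set (ℂ × ℂ)) × ℝ => F0 φ q.1 q.2) := by
  have hH := cont_H hc
  have hE := cont_ET
  have cz : Continuous (fun q : (D ×ˢ D : Set (ℂ × ℂ)) × ℝ => (q.1 : ℂ × ℂ).1) := by fun_prop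
  have cw : Continuous (fun q : (D ×ˢ D : Set (ℂ × ℂ)) × ℝ => (q.1 : ℂ × ℂ).2) := by fun_prop
  have cE : Continuous (fun q : (D ×ˢ D : Set (ℂ × ℂ)) × ℝ => ET q.2) := hE.comp continuous_snd
  have cH : Continuous (fun q : (D ×ˢ D : Set (ℂ × ℂ)) × ℝ => φ (ET q.2)) :=
    hH.comp continuous_snd
  have hz : ∀ q : (D ×ˢ D : Set (ℂ × ℂ)) × ℝ, ‖(q.1 : ℂ × ℂ).1‖ < 1 := fun q => by
    simpa using q.1.2.1
  have hw : ∀ q : (D ×ˢ D : Set (ℂ × ℂ)) × ℝ, ‖(q.1 : ℂ × ℂ).2‖ < 1 := fun q => by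
    simpa using q.1.2.2
  have hη : ∀ q : (D ×ˢ D : Set (ℂ × ℂ)) × ℝ, ‖φ (ET q.2)‖ = 1 := fun q => by
    simpa using hφ (mem_ET q.2)
  have n1 : ∀ q : (D ×ˢ D : Set (ℂ × ℂ)) × ℝ, ET q.2 - (q.1 : ℂ × ℂ).1 ≠ 0 := fun q =>
    sub_ne (hz q) (norm_ET _)
  have n2 : ∀ q : (D ×ˢ D : Set (ℂ × ℂ)) × ℝ, 1 - conj (q.1 : ℂ × ℂ).2 * φ (ET q.2) ≠ 0 :=
    fun q => one_sub_ne (hw q) (hη q)
  have cd : Continuous (fun q : (D ×ˢ D : Set (ℂ × ℂ)) × ℝ =>
      1 - conj (q.1 : ℂ × ℂ).2 * φ (ET q.2)) :=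
    continuous_const.sub ((Complex.continuous_conj.comp cw).mul cH)
  have ck : Continuous (fun q : (D ×ˢ D : Set (ℂ × ℂ)) × ℝ => kA (q.1 : ℂ × ℂ).1 (ET q.2)) := by
    unfold kA
    exact cE.div ((cE.sub cz).pow 2) (fun q => pow_ne_zero 2 (n1 q))
  have cT : Continuous (fun q : (D ×ˢ D : Set (ℂ × ℂ)) × ℝ =>
      TT (q.1 : ℂ × ℂ).2 (φ (ET q.2))) := by
    unfold TT
    exact (cH.sub cw).div cd n2
  have cP : Continuous (fun q : (D ×ˢ D : Set (ℂ × ℂ)) × ℝ =>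
      ((PK (q.1 : ℂ × ℂ).1 (ET q.2) : ℝ) : ℂ)) := by
    apply Complex.continuous_ofReal.comp
    unfold PK
    exact (continuous_const.sub (cz.norm.pow 2)).div ((cE.sub cz).norm.pow 2)
      (fun q => pow_ne_zero 2 (norm_ne_zero_iff.2 (n1 q)))
  refine ⟨?_, ?_, ?_, ?_, ?_⟩
  · unfold c1; exact cT.mul ck
  · unfold c2; exact cT.mul (Complex.continuous_conj.comp ck)
  · unfold c3; exact cP.mul (continuous_const.div cd n2)
  · unfold c4
    exact cP.mul (((cH.sub cw).mul cH).div (cd.pow 2) (fun q => pow_ne_zero 2 (n2 q)))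
  · unfold F0; exact cP.mul cT

private theorem cont_F1 :
    Continuous (fun q : (D ×ˢ D : Set (ℂ × ℂ)) × ℝ => F1 φ q.1 q.2) := by
  obtain ⟨h1, h2, h3, h4, -⟩ := cont_all hc hφ
  unfold F1
  exact (((h1.smul continuous_const).add (h2.smul continuous_const)).add
    (h3.smul continuous_const)).add (h4.smul continuous_const)

end cont

private theorem toOn {F : Type*} [TopologicalSpace F] {f : (ℂ × ℂ) × ℝ → F}
    (h : Continuous (fun q : (D ×ˢ D : Set (ℂ × ℂ)) × ℝ => f (q.1, q.2))) :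
    ContinuousOn f ((D ×ˢ D) ×ˢ univ) := by
  rw [continuousOn_iff_continuous_domRestrict]
  have h1 : Continuous (fun q : ((D ×ˢ D : Set (ℂ × ℂ)) ×ˢ (univ : Set ℝ) : Set ((ℂ × ℂ) × ℝ)) =>
      ((⟨(q : (ℂ × ℂ) × ℝ).1, q.2.1⟩, (q : (ℂ × ℂ) × ℝ).2) :
        (D ×ˢ D : Set (ℂ × ℂ)) × ℝ)) := by
    refine Continuous.prodMk ?_ ?_
    · exact Continuous.subtype_mk (by fun_prop) _
    · fun_prop
  exact h.comp h1

private theorem int4 {f1 f2 f3 f4 : ℝ → ℂ} (h1 : Continuous f1) (h2 : Continuous f2)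
    (h3 : Continuous f3) (h4 : Continuous f4) (x1 x2 x3 x4 : ℂ) (a b : ℝ) :
    ∫ t in a..b, (f1 t * x1 + f2 t * x2 + f3 t * x3 + f4 t * x4) =
      (∫ t in a..b, f1 t) * x1 + (∫ t in a..b, f2 t) * x2 + (∫ t in a..b, f3 t) * x3
      + (∫ t in a..b, f4 t) * x4 := by
  have i : ∀ {f : ℝ → ℂ}, Continuous f → IntervalIntegrable f volume a b := fun h =>
    h.intervalIntegrable _ _
  rw [intervalIntegral.integral_add (i (by fun_prop)) (i (by fun_prop)),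
    intervalIntegral.integral_add (i (by fun_prop)) (i (by fun_prop)),
    intervalIntegral.integral_add (i (by fun_prop)) (i (by fun_prop)),
    intervalIntegral.integral_mul_const, intervalIntegral.integral_mul_const,
    intervalIntegral.integral_mul_const, intervalIntegral.integral_mul_const]

/-- `∂_z PK = PK conj (TT z ζ)/(1 - |z|²)` -/
private theorem PK_kA {z ζ : ℂ} (h : ‖ζ‖ = 1) (hz : ‖z‖ < 1) :
    ((PK z ζ : ℝ) : ℂ) * conj (TT z ζ) / ((1 - ‖z‖ ^ 2 : ℝ) : ℂ) = kA z ζ := by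
  have h0 := sub_ne hz h
  have h0' : conj ζ - conj z ≠ 0 := by
    rw [← map_sub]; exact (map_ne_zero _).2 h0
  have h1 := mul_conj_one h
  have h2 : (‖ζ - z‖ : ℂ) ^ 2 = (ζ - z) * (conj ζ - conj z) := by
    rw [← map_sub, Complex.mul_conj, Complex.normSq_eq_norm_sq]; push_cast; rfl
  have h3 : (1 - (‖z‖ : ℂ) ^ 2) ≠ 0 := by
    have : (0 : ℝ) < 1 - ‖z‖ ^ 2 := by nlinarith [norm_nonneg z]
    exact_mod_cast this.ne'
  have h4 : 1 - z * conj ζ ≠ 0 := by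
    have := one_sub_ne hz h
    have h5 := (map_ne_zero (starRingEnd ℂ)).2 this
    simpa [mul_comm] using h5
  unfold PK TT kA
  push_cast
  rw [h2, map_div₀, map_sub, map_sub, map_one, map_mul, Complex.conj_conj]
  field_simp
  linear_combination z * h1

theorem hDDR : StDDR := by
  intro φ hdeg
  obtain ⟨hc, -, hφ, -⟩ := hdeg
  obtain ⟨h1, h2, h3, h4, h0⟩ := cont_all hc hφ
  have hF1 := cont_F1 hc hφ
  have hU : IsOpen (D ×ˢ D : Set (ℂ × ℂ)) := isOpen_ball.prod isOpen_ball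
  set K : ℂ := ((2 * Real.pi : ℝ) : ℂ)⁻¹ with hK
  have hder : ∀ p ∈ (D ×ˢ D : Set (ℂ × ℂ)), HasFDerivAt
      (fun q => ∫ t in (0 : ℝ)..(2 * Real.pi), F0 φ q t)
      (∫ t in (0 : ℝ)..(2 * Real.pi), F1 φ p t) p :=
    param_fd hU (fun p hp t => hasFD_F hφ hp t)
      (toOn (f := fun q : (ℂ × ℂ) × ℝ => F0 φ q.1 q.2) h0)
      (toOn (f := fun q : (ℂ × ℂ) × ℝ => F1 φ q.1 q.2) hF1) _ _
  have hFF : (fun p : ℂ × ℂ => FF φ p.1 p.2) =
      fun p => K * ∫ t in (0 : ℝ)..(2 * Real.pi), F0 φ p t := by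
    funext p
    rfl
  have hder2 : ∀ p ∈ (D ×ˢ D : Set (ℂ × ℂ)), HasFDerivAt (fun p : ℂ × ℂ => FF φ p.1 p.2)
      (K • ∫ t in (0 : ℝ)..(2 * Real.pi), F1 φ p t) p := by
    intro p hp
    rw [hFF]
    exact (hder p hp).const_mul K
  have hfd : ∀ p ∈ (D ×ˢ D : Set (ℂ × ℂ)), fderiv ℝ (fun p : ℂ × ℂ => FF φ p.1 p.2) p =
      K • ∫ t in (0 : ℝ)..(2 * Real.pi), F1 φ p t := fun p hp => (hder2 p hp).fderiv
  constructor
  · have hco : ContinuousOn (fun p => K • ∫ t in (0 : ℝ)..(2 * Real.pi), F1 φ p t) (D ×ˢ D) :=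
      (param_co hF1 _ _).const_smul K
    have e : (1 : WithTop ℕ∞) = 0 + 1 := by norm_num
    rw [e, contDiffOn_succ_iff_fderiv_of_isOpen hU]
    refine ⟨fun p hp => (hder2 p hp).differentiableAt.differentiableWithinAt, ?_, ?_⟩
    · intro h; simp at h
    · rw [contDiffOn_zero]
      exact hco.congr hfd
  · intro z hz w hw a b
    have hp : ((z, w) : ℂ × ℂ) ∈ (D ×ˢ D : Set (ℂ × ℂ)) := ⟨hz, hw⟩
    have hz' : ‖z‖ < 1 := by simpa using hz
    have hw' : ‖w‖ < 1 := by simpa using hw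
    rw [hfd _ hp]
    have i1 : Continuous (fun t => c1 φ (z, w) t) :=
      h1.comp (f := fun t : ℝ => ((⟨(z, w), hp⟩, t) : (D ×ˢ D : Set (ℂ × ℂ)) × ℝ)) (by fun_prop)
    have i2 : Continuous (fun t => c2 φ (z, w) t) :=
      h2.comp (f := fun t : ℝ => ((⟨(z, w), hp⟩, t) : (D ×ˢ D : Set (ℂ × ℂ)) × ℝ)) (by fun_prop)
    have i3 : Continuous (fun t => c3 φ (z, w) t) :=
      h3.comp (f := fun t : ℝ => ((⟨(z, w), hp⟩, t) : (D ×ˢ D : Set (ℂ × ℂ)) × ℝ)) (by fun_prop)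
    have i4 : Continuous (fun t => c4 φ (z, w) t) :=
      h4.comp (f := fun t : ℝ => ((⟨(z, w), hp⟩, t) : (D ×ˢ D : Set (ℂ × ℂ)) × ℝ)) (by fun_prop)
    have iF : Continuous (fun t => F1 φ (z, w) t) :=
      hF1.comp (f := fun t : ℝ => ((⟨(z, w), hp⟩, t) : (D ×ˢ D : Set (ℂ × ℂ)) × ℝ)) (by fun_prop)
    have e1 : (K • ∫ t in (0 : ℝ)..(2 * Real.pi), F1 φ (z, w) t) (a, b) =
        K * ∫ t in (0 : ℝ)..(2 * Real.pi), (c1 φ (z, w) t * a + c2 φ (z, w) t * conj a +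
          c3 φ (z, w) t * b + c4 φ (z, w) t * conj b) := by
      show K • ((∫ t in (0 : ℝ)..(2 * Real.pi), F1 φ (z, w) t) (a, b)) = _
      rw [ContinuousLinearMap.intervalIntegral_apply (iF.intervalIntegrable _ _), smul_eq_mul]
      congr 1
    rw [e1, int4 i1 i2 i3 i4]
    have p1 : PI (fun ζ => TT w (φ ζ) * conj (TT z ζ)) z / ((1 - ‖z‖ ^ 2 : ℝ) : ℂ) =
        K * ∫ t in (0 : ℝ)..(2 * Real.pi), c1 φ (z, w) t := by
      unfold PI
      rw [mul_div_assoc, ← intervalIntegral.integral_div]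
      congr 1
      apply intervalIntegral.integral_congr
      intro t _
      show ((PK z (ET t) : ℝ) : ℂ) * (TT w (φ (ET t)) * conj (TT z (ET t)))
        / ((1 - ‖z‖ ^ 2 : ℝ) : ℂ) = TT w (φ (ET t)) * kA z (ET t)
      rw [← PK_kA (norm_ET t) hz']
      ring
    have p2 : PI (fun ζ => TT w (φ ζ) * TT z ζ) z / ((1 - ‖z‖ ^ 2 : ℝ) : ℂ) =
        K * ∫ t in (0 : ℝ)..(2 * Real.pi), c2 φ (z, w) t := by
      unfold PI
      rw [mul_div_assoc, ← intervalIntegral.integral_div]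
      congr 1
      apply intervalIntegral.integral_congr
      intro t _
      show ((PK z (ET t) : ℝ) : ℂ) * (TT w (φ (ET t)) * TT z (ET t))
        / ((1 - ‖z‖ ^ 2 : ℝ) : ℂ) = TT w (φ (ET t)) * conj (kA z (ET t))
      rw [← PK_kA (norm_ET t) hz', map_div₀, map_mul, Complex.conj_conj, Complex.conj_ofReal,
        Complex.conj_ofReal]
      ring
    have p3 : PI (fun ζ => -1 / (1 - conj w * φ ζ)) z =
        K * ∫ t in (0 : ℝ)..(2 * Real.pi), c3 φ (z, w) t := rfl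
    have p4 : PI (fun ζ => (φ ζ - w) * φ ζ / (1 - conj w * φ ζ) ^ 2) z =
        K * ∫ t in (0 : ℝ)..(2 * Real.pi), c4 φ (z, w) t := rfl
    rw [p1, p2, p3, p4]
    ring

end Pool.Agent.Helper75.QD
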